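import Pool.Agent.Helper54.FP.Inst

/-!
# FP-24: points of finitely generated domains over an algebraically closed field
-/

set_option autoImplicit false

namespace Pool.Agent.Helper54.FP

theorem exists_point {k K : Type} [Field k] [IsAlgClosed k] [Field K] [Algebra k K]
    (S : Finset K) (x : K) (hx : x ∈ Algebra.adjoin k (S : Set K)) (hx0 : x ≠ 0) :
    ∃ l : Algebra.adjoin k (S : Set K) →ₐ[k] k, l ⟨x, hx⟩ ≠ 0 := by
  have hft : Algebra.FiniteType k (Algebra.adjoin k (S : Set K)) :=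
    Subalgebra.fg_iff_finiteType _ |>.1 ⟨S, rfl⟩
  have : IsJacobsonRing (Algebra.adjoin k (S : Set K)) :=
    isJacobsonRing_of_finiteType (A := k)
  -- a maximal ideal which does not contain `x`
  obtain ⟨m, hm, hxm⟩ : ∃ m : Ideal (Algebra.adjoin k (S : Set K)), m.IsMaximal ∧
      (⟨x, hx⟩ : Algebra.adjoin k (S : Set K)) ∉ m := by
    by_contra hcon
    push Not at hcon
    have h1 : (⟨x, hx⟩ : Algebra.adjoin k (S : Set K)) ∈ (⊥ : Ideal _).jacobson := by
      rw [Ideal.jacobson, Submodule.mem_sInf]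
      rintro J ⟨-, hJ⟩
      exact hcon J hJ
    rw [← Ideal.radical_eq_jacobson, Ideal.radical_bot_of_isReduced, Ideal.mem_bot] at h1
    exact hx0 (congrArg Subtype.val h1)
  let : Field (Algebra.adjoin k (S : Set K) ⧸ m) := Ideal.Quotient.field m
  have : Algebra.FiniteType k (Algebra.adjoin k (S : Set K) ⧸ m) :=
    hft.of_surjective (Ideal.Quotient.mkₐ k m) (Ideal.Quotient.mkₐ_surjective k m)
  have : Module.Finite k (Algebra.adjoin k (S : Set K) ⧸ m) :=
    finite_of_finite_type_of_isJacobsonRing k _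
  have hbij : Function.Bijective (algebraMap k (Algebra.adjoin k (S : Set K) ⧸ m)) :=
    IsAlgClosed.algebraMap_bijective_of_isIntegral
  let E : k ≃ₐ[k] (Algebra.adjoin k (S : Set K) ⧸ m) :=
    AlgEquiv.ofBijective (Algebra.ofId k _) hbij
  refine ⟨(E.symm : (Algebra.adjoin k (S : Set K) ⧸ m) →ₐ[k] k).comp (Ideal.Quotient.mkₐ k m),
    fun h => hxm ?_⟩
  have h2 : E.symm (Ideal.Quotient.mkₐ k m ⟨x, hx⟩) = 0 := h
  rw [EmbeddingLike.map_eq_zero_iff] at h2
  exact Ideal.Quotient.eq_zero_iff_mem.1 h2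

end Pool.Agent.Helper54.FP
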